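import Pool.Agent.H11.WD.Mean

/-! # [H11 WD TWO] The prime powers with a small prime -/

namespace Pool.Agent.H11.WD

open Finset ArithmeticFunction

theorem mean2 {b : ℕ} {c : ℤ} {X H : ℕ} (hb : 2 ≤ b) (hX : 1 ≤ X) (hH : H ≤ X) (Q : Finset ℕ)
    (hQ : ∀ q ∈ Q, Nat.Coprime q b) :
    ∑ q ∈ Q, vonMangoldt q * ((sol b c X q).card : ℝ) ≤
      (((X / (H + 1) : ℕ) : ℝ) + 1) * (∑ q ∈ Q, vonMangoldt q) + X * H * (Real.log (2 * X) + H * Real.log b) := by
  classical
  set R := Icc 1 X ×ˢ Icc 1 H with hR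
  have h1 : ∀ q ∈ Q, vonMangoldt q * ((sol b c X q).card : ℝ) ≤
      vonMangoldt q * (((X / (H + 1) : ℕ) : ℝ) + 1) +
        ∑ p ∈ R, if q ∣ dif b p.1 p.2 then vonMangoldt q else 0 := by
    intro q hq
    have hcop := hQ q hq
    have h2 := close (sol b c X q) X H (fun a ha => (mem_Icc.1 (mem_filter.1 ha).1).2)
    have h0 : 0 ∉ sol b c X q := by
      intro h
      have := (mem_Icc.1 (mem_filter.1 h).1).1
      omega
    rw [if_neg h0, add_zero] at h2
    have h3 : (R.filter fun p => p.1 ∈ sol b c X q ∧ p.1 + p.2 ∈ sol b c X q) ⊆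
        R.filter fun p => q ∣ dif b p.1 p.2 := by
      intro p hp
      obtain ⟨hpR, hp1, hp2⟩ := mem_filter.1 hp
      exact mem_filter.2 ⟨hpR, gap' hb hcop (mem_filter.1 hp1).2 (mem_filter.1 hp2).2⟩
    have h4 : (sol b c X q).card ≤ X / (H + 1) + 1 + (R.filter fun p => q ∣ dif b p.1 p.2).card :=
      h2.trans (Nat.add_le_add_left (card_le_card h3) _)
    have h5 : ((sol b c X q).card : ℝ) ≤ ((X / (H + 1) : ℕ) : ℝ) + 1 +
        ((R.filter fun p => q ∣ dif b p.1 p.2).card : ℝ) := by exact_mod_cast h4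
    have h6 : ∑ p ∈ R, (if q ∣ dif b p.1 p.2 then vonMangoldt q else 0) =
        vonMangoldt q * ((R.filter fun p => q ∣ dif b p.1 p.2).card : ℝ) := by
      rw [← sum_filter, sum_const, nsmul_eq_mul, mul_comm]
    rw [h6, ← mul_add]
    exact mul_le_mul_of_nonneg_left h5 vonMangoldt_nonneg
  have h8 : ∑ q ∈ Q, ∑ p ∈ R, (if q ∣ dif b p.1 p.2 then vonMangoldt q else 0) ≤
      X * H * (Real.log (2 * X) + H * Real.log b) := by
    rw [sum_comm]
    have h9 : ∀ p ∈ R, ∑ q ∈ Q, (if q ∣ dif b p.1 p.2 then vonMangoldt q else 0) ≤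
        Real.log (2 * X) + H * Real.log b := by
      intro p hp
      obtain ⟨hp1, hp2⟩ := mem_product.1 hp
      have hk := mem_Icc.1 hp1
      have hh := mem_Icc.1 hp2
      have hpos := dif_pos (k := p.1) hb hh.1
      calc ∑ q ∈ Q, (if q ∣ dif b p.1 p.2 then vonMangoldt q else 0)
          = ∑ q ∈ Q.filter (fun q => q ∣ dif b p.1 p.2), vonMangoldt q := (sum_filter _ _).symm
        _ ≤ ∑ q ∈ (dif b p.1 p.2).divisors, vonMangoldt q := by
            refine sum_le_sum_of_subset_of_nonneg ?_ (fun _ _ _ => vonMangoldt_nonneg)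
            intro q hq
            exact Nat.mem_divisors.2 ⟨(mem_filter.1 hq).2, by omega⟩
        _ = Real.log (dif b p.1 p.2) := vonMangoldt_sum
        _ ≤ Real.log (2 * X) + p.2 * Real.log b := log_dif hb hX hk.2 (hh.2.trans hH)
        _ ≤ Real.log (2 * X) + H * Real.log b := by
            have h10 : (p.2 : ℝ) ≤ H := by exact_mod_cast hh.2
            have h11 : 0 ≤ Real.log b := Real.log_natCast_nonneg b
            nlinarith
    calc ∑ p ∈ R, ∑ q ∈ Q, (if q ∣ dif b p.1 p.2 then vonMangoldt q else 0)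
        ≤ ∑ p ∈ R, (Real.log (2 * X) + H * Real.log b) := sum_le_sum h9
      _ = X * H * (Real.log (2 * X) + H * Real.log b) := by
          rw [sum_const, nsmul_eq_mul, hR, card_product, Nat.card_Icc, Nat.card_Icc]
          push_cast
          simp
  calc ∑ q ∈ Q, vonMangoldt q * ((sol b c X q).card : ℝ)
      ≤ ∑ q ∈ Q, (vonMangoldt q * (((X / (H + 1) : ℕ) : ℝ) + 1) +
          ∑ p ∈ R, if q ∣ dif b p.1 p.2 then vonMangoldt q else 0) := sum_le_sum h1
    _ = (((X / (H + 1) : ℕ) : ℝ) + 1) * (∑ q ∈ Q, vonMangoldt q) +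
          ∑ q ∈ Q, ∑ p ∈ R, (if q ∣ dif b p.1 p.2 then vonMangoldt q else 0) := by
        rw [sum_add_distrib, ← sum_mul, mul_comm]
    _ ≤ _ := add_le_add le_rfl h8

/-- the prime powers up to `Z` of one prime -/
theorem one_prime {Z p : ℕ} (hZ : 1 ≤ Z) (Q : Finset ℕ) (hQ : ∀ q ∈ Q, q ≤ Z ∧ q.minFac = p) :
    ∑ q ∈ Q, vonMangoldt q ≤ Real.log Z := by
  classical
  have h1 : ∑ q ∈ Q, vonMangoldt q = ∑ q ∈ Q.filter (fun q => IsPrimePow q), Real.log p := by
    rw [sum_filter]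
    refine sum_congr rfl fun q hq => ?_
    rw [vonMangoldt_apply, (hQ q hq).2]
  rw [h1, sum_const, nsmul_eq_mul]
  have h0 : 0 ≤ Real.log Z := Real.log_natCast_nonneg Z
  rcases (Q.filter (fun q => IsPrimePow q)).eq_empty_or_nonempty with h2 | ⟨q0, hq0⟩
  · rw [h2, card_empty]
    simpa using h0
  · obtain ⟨hq0Q, hq0p⟩ := mem_filter.1 hq0
    have hp : p.Prime := by
      rw [← (hQ q0 hq0Q).2]
      exact Nat.minFac_prime hq0p.ne_one
    have h3 : Q.filter (fun q => IsPrimePow q) ⊆ (Icc 1 (Nat.log p Z)).image (fun a => p ^ a) := by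
      intro q hq
      obtain ⟨hqQ, hqp⟩ := mem_filter.1 hq
      obtain ⟨p', a, hp', ha, hpa⟩ := (isPrimePow_nat_iff q).1 hqp
      have h4 : p' = p := by
        rw [← (hQ q hqQ).2, ← hpa, hp'.pow_minFac (by omega)]
      rw [h4] at hpa
      rw [mem_image]
      refine ⟨a, mem_Icc.2 ⟨ha, ?_⟩, hpa⟩
      refine Nat.le_log_of_pow_le hp.one_lt ?_
      rw [hpa]
      exact (hQ q hqQ).1
    have h4 : (Q.filter (fun q => IsPrimePow q)).card ≤ Nat.log p Z := by
      refine (card_le_card h3).trans (card_image_le.trans ?_)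
      rw [Nat.card_Icc, Nat.add_sub_cancel]
    have h5 : ((Nat.log p Z : ℕ) : ℝ) * Real.log p ≤ Real.log Z := by
      rw [← Real.log_pow]
      refine Real.log_le_log ?_ ?_
      · have : (0 : ℝ) < p := by exact_mod_cast hp.pos
        positivity
      · exact_mod_cast Nat.pow_log_le_self p (by omega : Z ≠ 0)
    refine le_trans ?_ h5
    refine mul_le_mul_of_nonneg_right ?_ (Real.log_natCast_nonneg p)
    exact_mod_cast h4

theorem small {Z X : ℕ} (hZ : 1 ≤ Z) (Q : Finset ℕ) (hQ : ∀ q ∈ Q, 1 ≤ q ∧ q ≤ Z ∧ q.minFac ≤ X) :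
    ∑ q ∈ Q, vonMangoldt q ≤ X * Real.log Z := by
  classical
  have h1 : ∀ q ∈ Q, q.minFac ∈ Icc 1 X := fun q hq => mem_Icc.2 ⟨Nat.minFac_pos q, (hQ q hq).2.2⟩
  rw [← sum_fiberwise_of_maps_to h1]
  calc ∑ p ∈ Icc 1 X, ∑ q ∈ Q.filter (fun q => q.minFac = p), vonMangoldt q
      ≤ ∑ p ∈ Icc 1 X, Real.log Z := by
        refine sum_le_sum fun p _ => one_prime (p := p) hZ _ fun q hq => ?_
        obtain ⟨hqQ, hqp⟩ := mem_filter.1 hq
        exact ⟨(hQ q hqQ).2.1, hqp⟩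
    _ = X * Real.log Z := by rw [sum_const, nsmul_eq_mul, Nat.card_Icc, Nat.add_sub_cancel]

end Pool.Agent.H11.WD
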