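import Pool.Agent.H11.WD.Tri
import Pool.Agent.H11.WD.Two

/-! # [H11 WD UPP] The mean over the prime powers up to `z` -/

namespace Pool.Agent.H11.WD

open Finset ArithmeticFunction

theorem psi_le {z : ℝ} (hz0 : 0 ≤ z) : Chebyshev.psi (⌊z⌋₊ : ℕ) ≤ 5.4 * z := by
  have h2 := Chebyshev.psi_le_const_mul_self (x := ((⌊z⌋₊ : ℕ) : ℝ)) (Nat.cast_nonneg _)
  have h3 : Real.log 4 ≤ 1.4 := by
    have h4 : Real.log 4 = 2 * Real.log 2 := by
      rw [show (4 : ℝ) = 2 ^ 2 by norm_num, Real.log_pow]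
      norm_num
    have h5 := Real.log_two_lt_d9
    rw [h4]
    linarith
  have h6 : ((⌊z⌋₊ : ℕ) : ℝ) ≤ z := Nat.floor_le hz0
  have h7 : (0 : ℝ) ≤ ((⌊z⌋₊ : ℕ) : ℝ) := Nat.cast_nonneg _
  have h8 : (Real.log 4 + 4) * ((⌊z⌋₊ : ℕ) : ℝ) ≤ 5.4 * ((⌊z⌋₊ : ℕ) : ℝ) :=
    mul_le_mul_of_nonneg_right (by linarith) h7
  linarith

/-- the two ranges together -/
theorem upper {b : ℕ} {c : ℤ} {X H H' : ℕ} {z : ℝ} (hb : 2 ≤ b) (hX : 1 ≤ X) (hH : H ≤ X) (hH' : H' ≤ X) (hz : 1 ≤ z) :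
    ∑ q ∈ (Icc 1 ⌊z⌋₊).filter (fun q => Nat.Coprime q b), vonMangoldt q * ((sol b c X q).card : ℝ) ≤
      (2 * (((X / (H + 1) : ℕ) : ℝ) + 1) * (5.4 * z) + (H : ℝ) ^ 2 * (Real.log X + H * Real.log b)) +
      ((((X / (H' + 1) : ℕ) : ℝ) + 1) * (X * Real.log z) + X * H' * (Real.log (2 * X) + H' * Real.log b)) := by
  classical
  set Q := (Icc 1 ⌊z⌋₊).filter (fun q => Nat.Coprime q b) with hQ
  have hz0 : 0 ≤ z := by linarith
  have hfl : 1 ≤ ⌊z⌋₊ := (Nat.one_le_floor_iff z).2 hz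
  rw [← sum_filter_add_sum_filter_not Q (fun q => X < q.minFac)]
  refine add_le_add ?_ ?_
  · have h1 := mean3 (c := c) hb hH (Q.filter fun q => X < q.minFac) (fun q hq => by
      obtain ⟨hqQ, hqX⟩ := mem_filter.1 hq
      refine ⟨(mem_filter.1 hqQ).2, hqX, ?_⟩
      rintro rfl
      rw [Nat.minFac_one] at hqX
      omega)
    refine h1.trans (add_le_add ?_ le_rfl)
    refine mul_le_mul_of_nonneg_left ?_ (by positivity)
    refine le_trans ?_ (psi_le hz0)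
    unfold Chebyshev.psi
    rw [Nat.floor_natCast]
    refine sum_le_sum_of_subset_of_nonneg ?_ (fun _ _ _ => vonMangoldt_nonneg)
    intro q hq
    have := mem_Icc.1 (mem_filter.1 (mem_filter.1 hq).1).1
    exact mem_Ioc.2 ⟨by omega, this.2⟩
  · have h1 := mean2 (c := c) hb hX hH' (Q.filter fun q => ¬ X < q.minFac) (fun q hq =>
      (mem_filter.1 (mem_filter.1 hq).1).2)
    refine h1.trans (add_le_add ?_ le_rfl)
    refine mul_le_mul_of_nonneg_left ?_ (by positivity)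
    refine (small (X := X) hfl _ (fun q hq => ?_)).trans ?_
    · obtain ⟨hqQ, hqX⟩ := mem_filter.1 hq
      have := mem_Icc.1 (mem_filter.1 hqQ).1
      exact ⟨this.1, this.2, not_lt.1 hqX⟩
    · refine mul_le_mul_of_nonneg_left ?_ (Nat.cast_nonneg _)
      refine Real.log_le_log (by exact_mod_cast hfl) (Nat.floor_le hz0)

theorem real_ineq {ε r L : ℝ} (h0 : 0 < ε) (h1 : ε ≤ 1) (hr : 300 ≤ ε ^ 2 * r) (hL : 0.693 ≤ L)
    (h : ε ^ 2 * r ^ 12 * L ≤ 0.36 * (ε ^ 2 * r ^ 12) + 0.27 * (ε ^ 3 * r ^ 10) + 3.375 * (ε ^ 2 * r ^ 9) +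
      0.421875 * (ε ^ 3 * r ^ 12 * L) + 10 * r ^ 11 + 10 * r ^ 7 + 6 * r ^ 9 + r ^ 10 * L) : False := by
  have he2 : ε ^ 2 ≤ 1 := pow_le_one₀ h0.le h1
  have he3 : ε ^ 3 ≤ ε ^ 2 := pow_le_pow_of_le_one h0.le h1 (by norm_num)
  have he3' : ε ^ 3 ≤ 1 := pow_le_one₀ h0.le h1
  have he0 : 0 < ε ^ 2 := by positivity
  have hr300 : 300 ≤ r := by
    by_contra hcon
    push Not at hcon
    rcases le_or_gt r 0 with h2 | h2
    · have : ε ^ 2 * r ≤ 0 := mul_nonpos_of_nonneg_of_nonpos he0.le h2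
      linarith
    · have : ε ^ 2 * r ≤ 1 * r := mul_le_mul_of_nonneg_right he2 h2.le
      linarith
  have hr0 : 0 < r := by linarith
  have p7 : 300 * r ^ 7 ≤ r ^ 8 := by
    have : r ^ 8 = r * r ^ 7 := by ring
    rw [this]
    exact mul_le_mul_of_nonneg_right hr300 (by positivity)
  have p8 : r ^ 8 ≤ r ^ 11 := pow_le_pow_right₀ (by linarith) (by norm_num)
  have p9 : 300 * r ^ 9 ≤ r ^ 10 := by
    have : r ^ 10 = r * r ^ 9 := by ring
    rw [this]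
    exact mul_le_mul_of_nonneg_right hr300 (by positivity)
  have p10 : 300 * r ^ 10 ≤ r ^ 11 := by
    have : r ^ 11 = r * r ^ 10 := by ring
    rw [this]
    exact mul_le_mul_of_nonneg_right hr300 (by positivity)
  have p10' : r ^ 10 ≤ r ^ 11 := pow_le_pow_right₀ (by linarith) (by norm_num)
  have p12 : 300 * r ^ 11 ≤ ε ^ 2 * r ^ 12 := by
    have : ε ^ 2 * r ^ 12 = ε ^ 2 * r * r ^ 11 := by ring
    rw [this]
    exact mul_le_mul_of_nonneg_right hr (by positivity)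
  have q1 : ε ^ 3 * r ^ 10 ≤ r ^ 10 := by
    have := mul_le_mul_of_nonneg_right he3' (by positivity : (0 : ℝ) ≤ r ^ 10)
    linarith
  have q2 : ε ^ 2 * r ^ 9 ≤ r ^ 9 := by
    have := mul_le_mul_of_nonneg_right he2 (by positivity : (0 : ℝ) ≤ r ^ 9)
    linarith
  have q3 : ε ^ 3 * r ^ 12 * L ≤ ε ^ 2 * r ^ 12 * L := by
    have := mul_le_mul_of_nonneg_right he3 (by positivity : (0 : ℝ) ≤ r ^ 12)
    exact mul_le_mul_of_nonneg_right this (by linarith)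
  have q8 : (0 : ℝ) < r ^ 11 := by positivity
  have q9 : (0 : ℝ) ≤ r ^ 7 := by positivity
  have q10 : (0 : ℝ) ≤ r ^ 9 := by positivity
  have q4 : 0 ≤ 0.578125 * (ε ^ 2 * r ^ 12) - r ^ 10 := by linarith
  have q5 : 0.693 * (0.578125 * (ε ^ 2 * r ^ 12) - r ^ 10) ≤ L * (0.578125 * (ε ^ 2 * r ^ 12) - r ^ 10) :=
    mul_le_mul_of_nonneg_right hL q4
  have q7 : L * (0.578125 * (ε ^ 2 * r ^ 12) - r ^ 10) = 0.578125 * (ε ^ 2 * r ^ 12 * L) - r ^ 10 * L := by ring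
  rw [q7] at q5
  linarith

end Pool.Agent.H11.WD
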