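import Pool.Agent.H11.WD.Upp

/-! # [H11 WD FIN] Almost all `k b ^ k + c` consist of prime powers of size `k ^ (5/3)`, up to a small factor -/

namespace Pool.Agent.H11.WD

open Finset ArithmeticFunction

theorem main {b : ℕ} {c : ℤ} (hb : 2 ≤ b) (hc : IsCoprime (b : ℤ) c) {ε : ℝ} (h0 : 0 < ε) (h1 : ε ≤ 1)
    {X : ℕ} {r : ℝ} (hr : 300 / ε ^ 2 ≤ r) (hX : (X : ℝ) = r ^ 6)
    (T : Finset ℕ) (hT : ∀ k ∈ T, 1 ≤ k ∧ k ≤ X ∧ ∃ m : ℕ, m ∣ num b c k ∧
      (∀ q : ℕ, IsPrimePow q → q ∣ m → (q : ℝ) ≤ ε ^ 3 / 40 * r ^ 10) ∧ m ≠ 0 ∧ ε * X * Real.log b ≤ Real.log m) :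
    (T.card : ℝ) ≤ ε * X := by
  classical
  by_contra hcon
  push Not at hcon
  have he0 : 0 < ε ^ 2 := by positivity
  have he1 : ε ^ 2 ≤ 1 := pow_le_one₀ h0.le h1
  have hεr : 300 ≤ ε ^ 2 * r := by
    have := (div_le_iff₀ he0).1 hr
    linarith
  have hr300 : 300 ≤ r := by
    refine le_trans ?_ hr
    rw [le_div_iff₀ he0]
    linarith
  have hr0 : 0 < r := by linarith
  have hXpos : (0 : ℝ) < X := by
    rw [hX]
    positivity
  have hX1 : 1 ≤ X := by exact_mod_cast hXpos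
  have hbr : (2 : ℝ) ≤ b := by exact_mod_cast hb
  have hlogb : 0.693 ≤ Real.log b := by
    have h2 : Real.log 2 ≤ Real.log b := Real.log_le_log (by norm_num) hbr
    have h3 := Real.log_two_gt_d9
    linarith
  have he3 : ε ^ 3 ≤ 1 := pow_le_one₀ h0.le h1
  set z : ℝ := ε ^ 3 / 40 * r ^ 10 with hz
  have hz1 : 1 ≤ z := by
    have h2 : ε ^ 3 * r ^ 10 = (ε ^ 2 * r) ^ 2 * (r ^ 8 / ε) := by
      field_simp
    have h3 : (300 : ℝ) ^ 2 ≤ (ε ^ 2 * r) ^ 2 := pow_le_pow_left₀ (by norm_num) hεr 2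
    have h4 : (1 : ℝ) ≤ r ^ 8 / ε := by
      rw [le_div_iff₀ h0]
      have : (1 : ℝ) ≤ r ^ 8 := one_le_pow₀ (by linarith)
      linarith
    have h5 : (300 : ℝ) ^ 2 * 1 ≤ (ε ^ 2 * r) ^ 2 * (r ^ 8 / ε) := mul_le_mul h3 h4 (by norm_num) (by positivity)
    rw [hz]
    linarith
  have hz0 : 0 ≤ z := by linarith
  have hzr : z ≤ r ^ 10 := by
    rw [hz]
    have h2 : ε ^ 3 / 40 * r ^ 10 ≤ 1 * r ^ 10 := mul_le_mul_of_nonneg_right (by linarith) (by positivity)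
    linarith
  set H : ℕ := ⌊3 / 4 * ε * r ^ 4⌋₊ with hH
  have hHle : (H : ℝ) ≤ 3 / 4 * ε * r ^ 4 := Nat.floor_le (by positivity)
  have hHlt : 3 / 4 * ε * r ^ 4 < (H : ℝ) + 1 := Nat.lt_floor_add_one _
  have hHX : H ≤ X := by
    have h2 : (H : ℝ) ≤ X := by
      rw [hX]
      have h4 : 3 / 4 * ε * r ^ 4 ≤ 1 * r ^ 4 := mul_le_mul_of_nonneg_right (by linarith) (by positivity)
      have h5 : r ^ 4 ≤ r ^ 6 := pow_le_pow_right₀ (by linarith) (by norm_num)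
      linarith
    exact_mod_cast h2
  set H' : ℕ := ⌊r ^ 2⌋₊ with hH'
  have hHle' : (H' : ℝ) ≤ r ^ 2 := Nat.floor_le (by positivity)
  have hHlt' : r ^ 2 < (H' : ℝ) + 1 := Nat.lt_floor_add_one _
  have hHX' : H' ≤ X := by
    have h2 : (H' : ℝ) ≤ X := by
      rw [hX]
      exact hHle'.trans (pow_le_pow_right₀ (by linarith) (by norm_num))
    exact_mod_cast h2
  have hlow : ε * X * (ε * X * Real.log b) ≤ (T.card : ℝ) * (ε * X * Real.log b) :=
    mul_le_mul_of_nonneg_right hcon.le (by positivity)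
  have hup := (lower (B := ε * X * Real.log b) hc T hT).trans (upper (c := c) hb hX1 hHX hHX' hz1)
  have hlogr : Real.log r ≤ r - 1 := Real.log_le_sub_one_of_pos hr0
  have hlogX : Real.log X ≤ 6 * r := by
    rw [hX, Real.log_pow]
    push_cast
    linarith
  have hlog2X : Real.log (2 * X) ≤ 6 * r := by
    rw [hX, Real.log_mul (by norm_num) (by positivity), Real.log_pow]
    have h2 := Real.log_two_lt_d9
    push_cast
    linarith
  have hlogz : Real.log z ≤ 10 * r := by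
    have h2 : Real.log z ≤ Real.log (r ^ 10) := Real.log_le_log (by linarith) hzr
    rw [Real.log_pow] at h2
    push_cast at h2
    linarith
  have hlog0 : 0 ≤ Real.log X := Real.log_natCast_nonneg X
  have hA : ((X / (H + 1) : ℕ) : ℝ) ≤ 4 / 3 * r ^ 2 / ε := by
    have h2 : ((X / (H + 1) : ℕ) : ℝ) ≤ (X : ℝ) / ((H + 1 : ℕ) : ℝ) := Nat.cast_div_le
    refine h2.trans ?_
    rw [hX, div_le_div_iff₀ (by positivity) h0]
    push_cast
    have h5 : 4 / 3 * r ^ 2 * (3 / 4 * ε * r ^ 4) ≤ 4 / 3 * r ^ 2 * ((H : ℝ) + 1) :=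
      mul_le_mul_of_nonneg_left hHlt.le (by positivity)
    calc r ^ 6 * ε = 4 / 3 * r ^ 2 * (3 / 4 * ε * r ^ 4) := by ring
      _ ≤ 4 / 3 * r ^ 2 * ((H : ℝ) + 1) := h5
  have hA' : ((X / (H' + 1) : ℕ) : ℝ) ≤ r ^ 4 := by
    have h2 : ((X / (H' + 1) : ℕ) : ℝ) ≤ (X : ℝ) / ((H' + 1 : ℕ) : ℝ) := Nat.cast_div_le
    refine h2.trans ?_
    rw [hX, div_le_iff₀ (by positivity)]
    push_cast
    calc r ^ 6 = r ^ 4 * r ^ 2 := by ring
      _ ≤ r ^ 4 * ((H' : ℝ) + 1) := mul_le_mul_of_nonneg_left hHlt'.le (by positivity)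
  have t1 : 2 * (((X / (H + 1) : ℕ) : ℝ) + 1) * (5.4 * z) ≤ 0.36 * (ε ^ 2 * r ^ 12) + 0.27 * (ε ^ 3 * r ^ 10) := by
    have h2 : 2 * (((X / (H + 1) : ℕ) : ℝ) + 1) * (5.4 * z) ≤ 2 * (4 / 3 * r ^ 2 / ε + 1) * (5.4 * z) := by
      refine mul_le_mul_of_nonneg_right ?_ (by positivity)
      linarith
    have h3 : 2 * (4 / 3 * r ^ 2 / ε + 1) * (5.4 * z) = 0.36 * (ε ^ 2 * r ^ 12) + 0.27 * (ε ^ 3 * r ^ 10) := by
      rw [hz]
      field_simp
      ring
    linarith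
  have t2 : (H : ℝ) ^ 2 * (Real.log X + H * Real.log b) ≤
      3.375 * (ε ^ 2 * r ^ 9) + 0.421875 * (ε ^ 3 * r ^ 12 * Real.log b) := by
    have h2 : (H : ℝ) ^ 2 ≤ (3 / 4 * ε * r ^ 4) ^ 2 := pow_le_pow_left₀ (Nat.cast_nonneg _) hHle 2
    have h3 : Real.log X + H * Real.log b ≤ 6 * r + 3 / 4 * ε * r ^ 4 * Real.log b := by
      have h4 : (H : ℝ) * Real.log b ≤ 3 / 4 * ε * r ^ 4 * Real.log b :=
        mul_le_mul_of_nonneg_right hHle (by linarith)
      linarith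
    calc (H : ℝ) ^ 2 * (Real.log X + H * Real.log b)
        ≤ (3 / 4 * ε * r ^ 4) ^ 2 * (6 * r + 3 / 4 * ε * r ^ 4 * Real.log b) := by
          refine mul_le_mul h2 h3 ?_ (by positivity)
          have : 0 ≤ (H : ℝ) * Real.log b := mul_nonneg (Nat.cast_nonneg _) (by linarith)
          linarith
      _ = 3.375 * (ε ^ 2 * r ^ 9) + 0.421875 * (ε ^ 3 * r ^ 12 * Real.log b) := by ring
  have t3 : (((X / (H' + 1) : ℕ) : ℝ) + 1) * (X * Real.log z) ≤ 10 * r ^ 11 + 10 * r ^ 7 := by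
    have h2 : (X : ℝ) * Real.log z ≤ r ^ 6 * (10 * r) := by
      rw [hX]
      exact mul_le_mul_of_nonneg_left hlogz (by positivity)
    calc (((X / (H' + 1) : ℕ) : ℝ) + 1) * (X * Real.log z)
        ≤ (r ^ 4 + 1) * (r ^ 6 * (10 * r)) := by
          refine mul_le_mul (by linarith) h2 ?_ (by positivity)
          have : 0 ≤ Real.log z := Real.log_nonneg hz1
          positivity
      _ = 10 * r ^ 11 + 10 * r ^ 7 := by ring
  have t4 : (X : ℝ) * H' * (Real.log (2 * X) + H' * Real.log b) ≤ 6 * r ^ 9 + r ^ 10 * Real.log b := by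
    have h2 : (X : ℝ) * H' ≤ r ^ 6 * r ^ 2 := by
      rw [hX]
      exact mul_le_mul_of_nonneg_left hHle' (by positivity)
    have h3 : Real.log (2 * X) + H' * Real.log b ≤ 6 * r + r ^ 2 * Real.log b := by
      have h4 : (H' : ℝ) * Real.log b ≤ r ^ 2 * Real.log b :=
        mul_le_mul_of_nonneg_right hHle' (by linarith)
      linarith
    have h5 : 0 ≤ Real.log (2 * X) := by
      apply Real.log_nonneg
      have : (1 : ℝ) ≤ X := by exact_mod_cast hX1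
      linarith
    calc (X : ℝ) * H' * (Real.log (2 * X) + H' * Real.log b)
        ≤ r ^ 6 * r ^ 2 * (6 * r + r ^ 2 * Real.log b) := by
          refine mul_le_mul h2 h3 ?_ (by positivity)
          have : 0 ≤ (H' : ℝ) * Real.log b := mul_nonneg (Nat.cast_nonneg _) (by linarith)
          linarith
      _ = 6 * r ^ 9 + r ^ 10 * Real.log b := by ring
  have hL : ε * X * (ε * X * Real.log b) = ε ^ 2 * r ^ 12 * Real.log b := by
    rw [hX]
    ring
  refine real_ineq (L := Real.log b) h0 h1 hεr hlogb ?_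
  rw [← hL]
  have := hlow.trans hup
  linarith

end Pool.Agent.H11.WD
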