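import Mathlib

/-! # [H11 WD] Prime power divisors of `k b ^ k + c` (gap principle on average) -/

namespace Pool.Agent.H11.WD

open Finset ArithmeticFunction

/-- the number `|k b ^ k + c|` -/
def num (b : ℕ) (c : ℤ) (k : ℕ) : ℕ := ((k : ℤ) * (b : ℤ) ^ k + c).natAbs

/-- two terms with a common divisor -/
theorem gap {b q k h : ℕ} {c : ℤ} (hq : Nat.Coprime q b) (h1 : q ∣ num b c k) (h2 : q ∣ num b c (k + h)) :
    (q : ℤ) ∣ ((k + h : ℕ) : ℤ) * (b : ℤ) ^ h - k := by
  have e1 : (q : ℤ) ∣ (k : ℤ) * (b : ℤ) ^ k + c := Int.natCast_dvd.2 h1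
  have e2 : (q : ℤ) ∣ ((k + h : ℕ) : ℤ) * (b : ℤ) ^ (k + h) + c := Int.natCast_dvd.2 h2
  have e3 : (q : ℤ) ∣ (b : ℤ) ^ k * (((k + h : ℕ) : ℤ) * (b : ℤ) ^ h - k) := by
    have h3 := dvd_sub e2 e1
    have h4 : ((k + h : ℕ) : ℤ) * (b : ℤ) ^ (k + h) + c - ((k : ℤ) * (b : ℤ) ^ k + c) =
        (b : ℤ) ^ k * (((k + h : ℕ) : ℤ) * (b : ℤ) ^ h - k) := by
      rw [pow_add]
      ring
    rwa [h4] at h3
  have hc : IsCoprime (q : ℤ) ((b : ℤ) ^ k) := by
    refine IsCoprime.pow_right ?_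
    exact Nat.isCoprime_iff_coprime.2 hq
  exact hc.dvd_of_dvd_mul_left e3

/-- the difference -/
def dif (b k h : ℕ) : ℕ := (k + h) * b ^ h - k

theorem dif_pos {b k h : ℕ} (hb : 2 ≤ b) (hh : 1 ≤ h) : 0 < dif b k h := by
  unfold dif
  have h1 : 1 ≤ b ^ h := Nat.one_le_pow _ _ (by omega)
  have h2 : k + h ≤ (k + h) * b ^ h := Nat.le_mul_of_pos_right _ h1
  omega

theorem gap' {b q k h : ℕ} {c : ℤ} (hb : 2 ≤ b) (hq : Nat.Coprime q b) (h1 : q ∣ num b c k)
    (h2 : q ∣ num b c (k + h)) : q ∣ dif b k h := by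
  have h3 := gap hq h1 h2
  have h4 : k ≤ (k + h) * b ^ h := by
    have : 1 ≤ b ^ h := Nat.one_le_pow _ _ (by omega)
    calc k ≤ k + h := Nat.le_add_right _ _
      _ ≤ (k + h) * b ^ h := Nat.le_mul_of_pos_right _ this
  unfold dif
  have h5 : (((k + h) * b ^ h - k : ℕ) : ℤ) = ((k + h : ℕ) : ℤ) * (b : ℤ) ^ h - k := by
    rw [Nat.cast_sub h4]
    push_cast
    ring
  rw [← h5] at h3
  exact_mod_cast h3

theorem log_dif {b k h X : ℕ} (hb : 2 ≤ b) (hX : 1 ≤ X) (hk : k ≤ X) (hh : h ≤ X) :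
    Real.log (dif b k h) ≤ Real.log (2 * X) + h * Real.log b := by
  have hb' : (0 : ℝ) < b := by
    have : (2 : ℝ) ≤ b := by exact_mod_cast hb
    linarith
  have hX' : (1 : ℝ) ≤ X := by exact_mod_cast hX
  have h1 : (dif b k h : ℝ) ≤ 2 * X * (b : ℝ) ^ h := by
    have h2 : dif b k h ≤ 2 * X * b ^ h := by
      unfold dif
      calc (k + h) * b ^ h - k ≤ (k + h) * b ^ h := Nat.sub_le _ _
        _ ≤ 2 * X * b ^ h := Nat.mul_le_mul_right _ (by omega)
    exact_mod_cast h2
  have h3 : Real.log (2 * X * (b : ℝ) ^ h) = Real.log (2 * X) + h * Real.log b := by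
    rw [Real.log_mul (by positivity) (by positivity), Real.log_pow]
  rw [← h3]
  rcases Nat.eq_zero_or_pos (dif b k h) with h0 | h0
  · rw [h0]
    simp only [Nat.cast_zero, Real.log_zero]
    apply Real.log_nonneg
    have hb1 : (1 : ℝ) ≤ b := by
      have : (2 : ℝ) ≤ b := by exact_mod_cast hb
      linarith
    have : (1 : ℝ) ≤ (b : ℝ) ^ h := one_le_pow₀ hb1
    nlinarith
  · exact Real.log_le_log (by exact_mod_cast h0) h1

/-- a set of integers has few elements or many close pairs -/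
theorem close (A : Finset ℕ) (X H : ℕ) (hA : ∀ a ∈ A, a ≤ X) :
    A.card ≤ X / (H + 1) + 1 + (((Icc 1 X ×ˢ Icc 1 H).filter fun p => p.1 ∈ A ∧ p.1 + p.2 ∈ A).card + (if 0 ∈ A then 1 else 0)) := by
  classical
  set A1 := A.filter fun a => ∀ h ∈ Icc 1 H, a + h ∉ A with hA1
  set A2 := A.filter fun a => ¬ ∀ h ∈ Icc 1 H, a + h ∉ A with hA2
  have hsum : A.card = A1.card + A2.card := (card_filter_add_card_filter_not _).symm
  have h1 : A1.card ≤ X / (H + 1) + 1 := by
    have hinj : Set.InjOn (fun a => a / (H + 1)) (A1 : Set ℕ) := by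
      intro a ha a' ha' haa
      have key : ∀ x y : ℕ, x ∈ A1 → y ∈ A1 → x < y → x / (H + 1) ≠ y / (H + 1) := by
        intro x y hx hy hxy heq
        have h2 := (mem_filter.1 hx).2
        have h3 : H < y - x := by
          by_contra hle
          push Not at hle
          refine h2 (y - x) (mem_Icc.2 ⟨by omega, hle⟩) ?_
          have : x + (y - x) = y := by omega
          rw [this]
          exact (mem_filter.1 hy).1
        have h4 : x + (H + 1) ≤ y := by omega
        have h5 := Nat.div_le_div_right (c := H + 1) h4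
        rw [Nat.add_div_right x (Nat.succ_pos H)] at h5
        have h6 : x / (H + 1) + 1 ≤ y / (H + 1) := h5
        omega
      have haa' : a / (H + 1) = a' / (H + 1) := haa
      rcases lt_trichotomy a a' with h | h | h
      · exact absurd haa' (key a a' ha ha' h)
      · exact h
      · exact absurd haa'.symm (key a' a ha' ha h)
    have hmap : ∀ a ∈ A1, a / (H + 1) ∈ range (X / (H + 1) + 1) := by
      intro a ha
      rw [mem_range, Nat.lt_succ_iff]
      exact Nat.div_le_div_right (hA a (mem_filter.1 ha).1)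
    have := card_le_card_of_injOn _ hmap hinj
    rwa [card_range] at this
  have h2 : A2.card ≤ ((Icc 1 X ×ˢ Icc 1 H).filter fun p => p.1 ∈ A ∧ p.1 + p.2 ∈ A).card +
      (if 0 ∈ A then 1 else 0) := by
    have hsub : A2 ⊆ (((Icc 1 X ×ˢ Icc 1 H).filter fun p => p.1 ∈ A ∧ p.1 + p.2 ∈ A).image Prod.fst) ∪
        (if 0 ∈ A then {0} else ∅) := by
      intro a ha
      obtain ⟨haA, h3⟩ := mem_filter.1 ha
      push Not at h3
      obtain ⟨h, hh, hah⟩ := h3
      rw [mem_union]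
      rcases Nat.eq_zero_or_pos a with h0 | h0
      · right
        subst h0
        rw [if_pos haA]
        exact mem_singleton_self _
      · left
        rw [mem_image]
        exact ⟨(a, h), mem_filter.2 ⟨mem_product.2 ⟨mem_Icc.2 ⟨h0, hA a haA⟩, hh⟩, haA, hah⟩, rfl⟩
    refine (card_le_card hsub).trans ((card_union_le _ _).trans (Nat.add_le_add card_image_le ?_))
    split_ifs <;> simp
  rw [hsum]
  omega

end Pool.Agent.H11.WD
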