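import Pool.Agent.H11.WD.Gap

/-! # [H11 WD MEAN] The terms divisible by a prime power; the logarithms of the terms -/

namespace Pool.Agent.H11.WD

open Finset ArithmeticFunction

/-- the terms divisible by `q` -/
def sol (b : ℕ) (c : ℤ) (X q : ℕ) : Finset ℕ := (Icc 1 X).filter fun k => q ∣ num b c k

theorem cop {b k : ℕ} {c : ℤ} (hk : 1 ≤ k) (hc : IsCoprime (b : ℤ) c) {q : ℕ} (hq : q ∣ num b c k) : Nat.Coprime q b := by
  have h1 : (q : ℤ) ∣ (k : ℤ) * (b : ℤ) ^ k + c := Int.natCast_dvd.2 hq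
  have h2 : IsCoprime ((k : ℤ) * (b : ℤ) ^ k + c) (b : ℤ) := by
    have h3 : (k : ℤ) * (b : ℤ) ^ k + c = c + (b : ℤ) * ((k : ℤ) * (b : ℤ) ^ (k - 1)) := by
      have h4 : (b : ℤ) ^ k = b * (b : ℤ) ^ (k - 1) := by
        rw [← pow_succ']
        congr 1
        omega
      rw [h4]
      ring
    rw [h3]
    exact (IsCoprime.add_mul_left_left hc.symm _)
  exact Nat.isCoprime_iff_coprime.1 (h2.of_isCoprime_of_dvd_left h1)

theorem num_ge {b k : ℕ} {c : ℤ} (hb : 2 ≤ b) (hk : c.natAbs + 1 ≤ k) : b ^ k ≤ num b c k := by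
  unfold num
  have h1 : (1 : ℤ) ≤ (b : ℤ) ^ k := by
    have : (1 : ℤ) ≤ b := by exact_mod_cast (by omega : 1 ≤ b)
    exact one_le_pow₀ this
  have h2 : |c| + 1 ≤ (k : ℤ) := by
    rw [Int.abs_eq_natAbs]
    exact_mod_cast hk
  have h3 : (b : ℤ) ^ k ≤ (k : ℤ) * (b : ℤ) ^ k + c := by
    have h4 := neg_abs_le c
    have h5 := abs_nonneg c
    nlinarith
  have h6 : ((b ^ k : ℕ) : ℤ) ≤ (((k : ℤ) * (b : ℤ) ^ k + c).natAbs : ℤ) := by
    push_cast
    exact h3.trans (le_abs_self _)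
  exact_mod_cast h6

theorem lower {b : ℕ} {c : ℤ} {X : ℕ} {z B : ℝ} (hc : IsCoprime (b : ℤ) c) (S : Finset ℕ)
    (hS : ∀ k ∈ S, 1 ≤ k ∧ k ≤ X ∧ ∃ m : ℕ, m ∣ num b c k ∧ (∀ q : ℕ, IsPrimePow q → q ∣ m → (q : ℝ) ≤ z) ∧
      m ≠ 0 ∧ B ≤ Real.log m) :
    (S.card : ℝ) * B ≤
      ∑ q ∈ (Icc 1 ⌊z⌋₊).filter (fun q => Nat.Coprime q b), vonMangoldt q * ((sol b c X q).card : ℝ) := by
  classical
  set Q := (Icc 1 ⌊z⌋₊).filter (fun q => Nat.Coprime q b) with hQ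
  have h1 : ∀ k ∈ S, B ≤ ∑ q ∈ Q, if q ∣ num b c k then vonMangoldt q else 0 := by
    intro k hk
    obtain ⟨hk1, -, m, hmn, hmq, hm0, hB⟩ := hS k hk
    refine hB.trans ?_
    have h2 : ∑ q ∈ m.divisors, vonMangoldt q =
        ∑ q ∈ m.divisors.filter (fun q => IsPrimePow q), vonMangoldt q := by
      rw [sum_filter]
      refine sum_congr rfl fun q _ => ?_
      split_ifs with h
      · rfl
      · exact vonMangoldt_eq_zero_iff.2 h
    have h3 : m.divisors.filter (fun q => IsPrimePow q) ⊆ Q.filter (fun q => q ∣ num b c k) := by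
      intro q hq
      obtain ⟨hqd, hqp⟩ := mem_filter.1 hq
      have hqm := Nat.dvd_of_mem_divisors hqd
      have hqn := hqm.trans hmn
      refine mem_filter.2 ⟨mem_filter.2 ⟨mem_Icc.2 ⟨hqp.pos, ?_⟩, cop hk1 hc hqn⟩, hqn⟩
      exact Nat.le_floor (hmq q hqp hqm)
    rw [← vonMangoldt_sum, h2, ← sum_filter]
    exact sum_le_sum_of_subset_of_nonneg h3 (fun _ _ _ => vonMangoldt_nonneg)
  calc (S.card : ℝ) * B = S.card • B := (nsmul_eq_mul _ _).symm
    _ ≤ ∑ k ∈ S, ∑ q ∈ Q, (if q ∣ num b c k then vonMangoldt q else 0) := card_nsmul_le_sum S _ B h1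
    _ = ∑ q ∈ Q, ∑ k ∈ S, (if q ∣ num b c k then vonMangoldt q else 0) := sum_comm
    _ ≤ ∑ q ∈ Q, vonMangoldt q * ((sol b c X q).card : ℝ) := by
        refine sum_le_sum fun q _ => ?_
        rw [← sum_filter, sum_const, nsmul_eq_mul, mul_comm]
        refine mul_le_mul_of_nonneg_left ?_ vonMangoldt_nonneg
        have h4 : (S.filter fun k => q ∣ num b c k).card ≤ (sol b c X q).card := by
          refine card_le_card fun k hk => ?_
          obtain ⟨hkS, hkq⟩ := mem_filter.1 hk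
          obtain ⟨hk1, hk2, -⟩ := hS k hkS
          exact mem_filter.2 ⟨mem_Icc.2 ⟨hk1, hk2⟩, hkq⟩
        exact_mod_cast h4

end Pool.Agent.H11.WD
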