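import Pool.Agent.H11.WD.Mean

/-! # [H11 WD TRI] Three close terms divisible by the same prime power -/

namespace Pool.Agent.H11.WD

open Finset ArithmeticFunction

/-- the number `e b ^ (d + e) + d - (d + e) b ^ e` -/
def elim (b d e : ℕ) : ℕ := e * b ^ (d + e) + d - (d + e) * b ^ e

theorem elim_aux {b d e : ℕ} (hb : 2 ≤ b) (he : 1 ≤ e) : (d + e) * b ^ e ≤ e * b ^ (d + e) := by
  have h1 : d + 1 ≤ b ^ d := Nat.lt_pow_self (by omega)
  have h2 : d + e ≤ e * (d + 1) := by nlinarith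
  calc (d + e) * b ^ e ≤ e * (d + 1) * b ^ e := Nat.mul_le_mul_right _ h2
    _ ≤ e * b ^ d * b ^ e := Nat.mul_le_mul_right _ (Nat.mul_le_mul_left _ h1)
    _ = e * b ^ (d + e) := by rw [pow_add]; ring

theorem elim_pos {b d e : ℕ} (hb : 2 ≤ b) (hd : 1 ≤ d) (he : 1 ≤ e) : 0 < elim b d e := by
  have h1 := elim_aux (d := d) hb he
  unfold elim
  omega

theorem elim_le {b d e : ℕ} (hb : 2 ≤ b) : elim b d e ≤ e * b ^ (d + e) := by
  have h1 : 1 ≤ b ^ e := Nat.one_le_pow _ _ (by omega)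
  have h2 : d + e ≤ (d + e) * b ^ e := Nat.le_mul_of_pos_right _ h1
  unfold elim
  omega

theorem log_elim {b d e X H : ℕ} (hb : 2 ≤ b) (hd : 1 ≤ d) (he : 1 ≤ e) (hde : d + e ≤ H) (hH : H ≤ X) :
    Real.log (elim b d e) ≤ Real.log X + H * Real.log b := by
  have hb1 : (1 : ℝ) ≤ b := by exact_mod_cast (by omega : 1 ≤ b)
  have hX : (1 : ℝ) ≤ X := by exact_mod_cast (by omega : 1 ≤ X)
  have h1 : (elim b d e : ℝ) ≤ X * (b : ℝ) ^ H := by
    have h2 : elim b d e ≤ X * b ^ H := (elim_le hb).trans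
      (Nat.mul_le_mul (by omega) (Nat.pow_le_pow_right (by omega) hde))
    exact_mod_cast h2
  have h3 : (0 : ℝ) < elim b d e := by exact_mod_cast elim_pos hb hd he
  have h4 := Real.log_le_log h3 h1
  rwa [Real.log_mul (by positivity) (by positivity), Real.log_pow] at h4

theorem tri {b q k d e : ℕ} {c : ℤ} (hb : 2 ≤ b) (he : 1 ≤ e) (hq : Nat.Coprime q b) (h1 : q ∣ num b c k)
    (h2 : q ∣ num b c (k + d)) (h3 : q ∣ num b c (k + d + e)) : q ∣ elim b d e := by
  have g1 := gap hq h1 h2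
  have g2 := gap hq h2 h3
  have h4 := elim_aux (d := d) hb he
  have h5 : ((elim b d e : ℕ) : ℤ) = ((b : ℤ) ^ d - 1) * (((k + d + e : ℕ) : ℤ) * (b : ℤ) ^ e - ((k + d : ℕ) : ℤ)) -
      ((b : ℤ) ^ e - 1) * (((k + d : ℕ) : ℤ) * (b : ℤ) ^ d - k) := by
    unfold elim
    rw [Nat.cast_sub (h4.trans (Nat.le_add_right _ _))]
    push_cast
    rw [pow_add]
    ring
  have h6 : (q : ℤ) ∣ ((elim b d e : ℕ) : ℤ) := by
    rw [h5]
    exact dvd_sub (Dvd.dvd.mul_left g2 _) (Dvd.dvd.mul_left g1 _)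
  exact_mod_cast h6

theorem uniq {b p k k' d X : ℕ} {c : ℤ} (hp : p.Prime) (hpX : X < p) (hpb : Nat.Coprime p b) (hd : 1 ≤ d) (hdX : d ≤ X)
    (hk : k ≤ X) (hk' : k' ≤ X) (h1 : p ∣ num b c k) (h2 : p ∣ num b c (k + d)) (h1' : p ∣ num b c k')
    (h2' : p ∣ num b c (k' + d)) : k = k' := by
  have g1 := gap hpb h1 h2
  have g2 := gap hpb h1' h2'
  have h3 : (p : ℤ) ∣ ((k : ℤ) - k') * ((b : ℤ) ^ d - 1) := by
    have h4 := dvd_sub g1 g2
    have h5 : ((k + d : ℕ) : ℤ) * (b : ℤ) ^ d - k - (((k' + d : ℕ) : ℤ) * (b : ℤ) ^ d - k') =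
        ((k : ℤ) - k') * ((b : ℤ) ^ d - 1) := by
      push_cast
      ring
    rwa [h5] at h4
  have hpi : Prime (p : ℤ) := Nat.prime_iff_prime_int.1 hp
  rcases hpi.dvd_or_dvd h3 with h4 | h4
  · have h5 : |(k : ℤ) - k'| < p := by
      rw [abs_lt]
      constructor <;> omega
    have h6 := Int.eq_zero_of_abs_lt_dvd h4 h5
    omega
  · exfalso
    have h5 : (p : ℤ) ∣ (d : ℤ) := by
      have h6 := dvd_sub g1 (Dvd.dvd.mul_left h4 ((k + d : ℕ) : ℤ))
      have h7 : ((k + d : ℕ) : ℤ) * (b : ℤ) ^ d - k - ((k + d : ℕ) : ℤ) * ((b : ℤ) ^ d - 1) = (d : ℤ) := by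
        push_cast
        ring
      rwa [h7] at h6
    have h6 : p ∣ d := by exact_mod_cast h5
    have h7 := Nat.le_of_dvd (by omega) h6
    omega

/-- a set of integers has few elements or many close triples -/
theorem close3 (A : Finset ℕ) (X H : ℕ) (hA : ∀ a ∈ A, 1 ≤ a ∧ a ≤ X) :
    A.card ≤ 2 * (X / (H + 1) + 1) + ((Icc 1 X ×ˢ ((Icc 1 H ×ˢ Icc 1 H).filter fun p => p.1 + p.2 ≤ H)).filter
      fun p => p.1 ∈ A ∧ p.1 + p.2.1 ∈ A ∧ p.1 + p.2.1 + p.2.2 ∈ A).card := by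
  classical
  set R := (Icc 1 H ×ˢ Icc 1 H).filter fun p => p.1 + p.2 ≤ H with hR
  set A1 := A.filter fun a => ∀ p ∈ R, ¬ (a + p.1 ∈ A ∧ a + p.1 + p.2 ∈ A) with hA1
  set A2 := A.filter fun a => ¬ ∀ p ∈ R, ¬ (a + p.1 ∈ A ∧ a + p.1 + p.2 ∈ A) with hA2
  have hsum : A.card = A1.card + A2.card := (card_filter_add_card_filter_not _).symm
  have key : ∀ x y z : ℕ, x ∈ A1 → y ∈ A1 → z ∈ A1 → x < y → y < z → x / (H + 1) ≠ z / (H + 1) := by
    intro x y z hx hy hz hxy hyz heq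
    have h2 := (mem_filter.1 hx).2
    have h3 : H < z - x := by
      by_contra hle
      push Not at hle
      refine h2 (y - x, z - y) ?_ ⟨?_, ?_⟩
      · rw [hR, mem_filter, mem_product, mem_Icc, mem_Icc]
        refine ⟨⟨⟨?_, ?_⟩, ?_, ?_⟩, ?_⟩ <;> simp only <;> omega
      · have : x + (y - x) = y := by omega
        simp only [this]
        exact (mem_filter.1 hy).1
      · have : x + (y - x) + (z - y) = z := by omega
        simp only [this]
        exact (mem_filter.1 hz).1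
    have h4 : x + (H + 1) ≤ z := by omega
    have h5 := Nat.div_le_div_right (c := H + 1) h4
    rw [Nat.add_div_right x (Nat.succ_pos H)] at h5
    have h6 : x / (H + 1) + 1 ≤ z / (H + 1) := h5
    omega
  have h1 : A1.card ≤ 2 * (X / (H + 1) + 1) := by
    have hmap : ∀ a ∈ A1, a / (H + 1) ∈ range (X / (H + 1) + 1) := by
      intro a ha
      rw [mem_range, Nat.lt_succ_iff]
      exact Nat.div_le_div_right (hA a (mem_filter.1 ha).1).2
    have h2 := card_le_mul_card_image_of_maps_to hmap 2 (fun t _ => by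
      by_contra hcon
      push Not at hcon
      obtain ⟨x, hx, y, hy, z, hz, hxy, hxz, hyz⟩ := two_lt_card.1 hcon
      obtain ⟨hx1, hx2⟩ := mem_filter.1 hx
      obtain ⟨hy1, hy2⟩ := mem_filter.1 hy
      obtain ⟨hz1, hz2⟩ := mem_filter.1 hz
      rcases lt_or_gt_of_ne hxy with a | a <;> rcases lt_or_gt_of_ne hxz with a' | a' <;>
        rcases lt_or_gt_of_ne hyz with a'' | a''
      · exact key x y z hx1 hy1 hz1 a a'' (by omega)
      · exact key x z y hx1 hz1 hy1 a' a'' (by omega)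
      · omega
      · exact key z x y hz1 hx1 hy1 a' a (by omega)
      · exact key y x z hy1 hx1 hz1 a a' (by omega)
      · omega
      · exact key y z x hy1 hz1 hx1 a'' a' (by omega)
      · exact key z y x hz1 hy1 hx1 a'' a (by omega))
    rwa [card_range] at h2
  have h2 : A2.card ≤ ((Icc 1 X ×ˢ R).filter fun p => p.1 ∈ A ∧ p.1 + p.2.1 ∈ A ∧ p.1 + p.2.1 + p.2.2 ∈ A).card := by
    have hsub : A2 ⊆ ((Icc 1 X ×ˢ R).filter fun p => p.1 ∈ A ∧ p.1 + p.2.1 ∈ A ∧ p.1 + p.2.1 + p.2.2 ∈ A).image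
        Prod.fst := by
      intro a ha
      obtain ⟨haA, h3⟩ := mem_filter.1 ha
      push Not at h3
      obtain ⟨p, hp, hp1, hp2⟩ := h3
      rw [mem_image]
      exact ⟨(a, p), mem_filter.2 ⟨mem_product.2 ⟨mem_Icc.2 (hA a haA), hp⟩, haA, hp1, hp2⟩, rfl⟩
    exact (card_le_card hsub).trans card_image_le
  rw [hsum]
  exact Nat.add_le_add h1 h2

theorem mean3 {b : ℕ} {c : ℤ} {X H : ℕ} (hb : 2 ≤ b) (hH : H ≤ X) (Q : Finset ℕ)
    (hQ : ∀ q ∈ Q, Nat.Coprime q b ∧ X < q.minFac ∧ q ≠ 1) :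
    ∑ q ∈ Q, vonMangoldt q * ((sol b c X q).card : ℝ) ≤
      2 * (((X / (H + 1) : ℕ) : ℝ) + 1) * (∑ q ∈ Q, vonMangoldt q) + (H : ℝ) ^ 2 * (Real.log X + H * Real.log b) := by
  classical
  set R := (Icc 1 H ×ˢ Icc 1 H).filter fun p : ℕ × ℕ => p.1 + p.2 ≤ H with hR
  have h1 : ∀ q ∈ Q, vonMangoldt q * ((sol b c X q).card : ℝ) ≤
      vonMangoldt q * (2 * (((X / (H + 1) : ℕ) : ℝ) + 1)) +
        ∑ p ∈ R, if q ∣ elim b p.1 p.2 then vonMangoldt q else 0 := by
    intro q hq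
    obtain ⟨hcop, hmin, hq1⟩ := hQ q hq
    have h2 := close3 (sol b c X q) X H (fun a ha => mem_Icc.1 (mem_filter.1 ha).1)
    rw [← hR] at h2
    have h3 : ((Icc 1 X ×ˢ R).filter fun p => p.1 ∈ sol b c X q ∧ p.1 + p.2.1 ∈ sol b c X q ∧
        p.1 + p.2.1 + p.2.2 ∈ sol b c X q).card ≤ (R.filter fun p => q ∣ elim b p.1 p.2).card := by
      refine card_le_card_of_injOn Prod.snd ?_ ?_
      · intro p hp
        obtain ⟨hpR, hp1, hp2, hp3⟩ := mem_filter.1 hp
        have hpR2 := (mem_product.1 hpR).2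
        have he := (mem_Icc.1 (mem_product.1 (mem_filter.1 hpR2).1).2).1
        exact mem_filter.2 ⟨hpR2, tri hb he hcop (mem_filter.1 hp1).2 (mem_filter.1 hp2).2 (mem_filter.1 hp3).2⟩
      · intro p hp p' hp' hpp
        obtain ⟨hpR, hp1, hp2, hp3⟩ := mem_filter.1 hp
        obtain ⟨hpR', hp1', hp2', hp3'⟩ := mem_filter.1 hp'
        have hpp2 : p.2 = p'.2 := hpp
        have hd := mem_Icc.1 (mem_product.1 (mem_filter.1 (mem_product.1 hpR).2).1).1
        have hdv : q.minFac ∣ q := Nat.minFac_dvd q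
        have h5 : p.1 = p'.1 := by
          refine uniq (b := b) (c := c) (p := q.minFac) (d := p.2.1) (X := X) (Nat.minFac_prime hq1) hmin
            (Nat.Coprime.coprime_dvd_left hdv hcop) hd.1 (hd.2.trans hH) (mem_Icc.1 (mem_filter.1 hp1).1).2
            (mem_Icc.1 (mem_filter.1 hp1').1).2 (hdv.trans (mem_filter.1 hp1).2) (hdv.trans (mem_filter.1 hp2).2)
            (hdv.trans (mem_filter.1 hp1').2) ?_
          rw [hpp2]
          exact hdv.trans (mem_filter.1 hp2').2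
        exact Prod.ext h5 hpp2
    have h4 : (sol b c X q).card ≤ 2 * (X / (H + 1) + 1) + (R.filter fun p => q ∣ elim b p.1 p.2).card :=
      h2.trans (Nat.add_le_add_left h3 _)
    have h5 : ((sol b c X q).card : ℝ) ≤ 2 * (((X / (H + 1) : ℕ) : ℝ) + 1) +
        ((R.filter fun p => q ∣ elim b p.1 p.2).card : ℝ) := by exact_mod_cast h4
    have h6 : ∑ p ∈ R, (if q ∣ elim b p.1 p.2 then vonMangoldt q else 0) =
        vonMangoldt q * ((R.filter fun p => q ∣ elim b p.1 p.2).card : ℝ) := by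
      rw [← sum_filter, sum_const, nsmul_eq_mul, mul_comm]
    rw [h6, ← mul_add]
    exact mul_le_mul_of_nonneg_left h5 vonMangoldt_nonneg
  have hnn : 0 ≤ Real.log X + H * Real.log b := by
    have := Real.log_natCast_nonneg b
    have := Real.log_natCast_nonneg X
    positivity
  have h8 : ∑ q ∈ Q, ∑ p ∈ R, (if q ∣ elim b p.1 p.2 then vonMangoldt q else 0) ≤
      (H : ℝ) ^ 2 * (Real.log X + H * Real.log b) := by
    rw [sum_comm]
    have h9 : ∀ p ∈ R, ∑ q ∈ Q, (if q ∣ elim b p.1 p.2 then vonMangoldt q else 0) ≤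
        Real.log X + H * Real.log b := by
      intro p hp
      obtain ⟨hp0, hpH⟩ := mem_filter.1 hp
      obtain ⟨hp1, hp2⟩ := mem_product.1 hp0
      have hd := mem_Icc.1 hp1
      have he := mem_Icc.1 hp2
      have hpos := elim_pos hb hd.1 he.1
      calc ∑ q ∈ Q, (if q ∣ elim b p.1 p.2 then vonMangoldt q else 0)
          = ∑ q ∈ Q.filter (fun q => q ∣ elim b p.1 p.2), vonMangoldt q := (sum_filter _ _).symm
        _ ≤ ∑ q ∈ (elim b p.1 p.2).divisors, vonMangoldt q := by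
            refine sum_le_sum_of_subset_of_nonneg ?_ (fun _ _ _ => vonMangoldt_nonneg)
            intro q hq
            exact Nat.mem_divisors.2 ⟨(mem_filter.1 hq).2, by omega⟩
        _ = Real.log (elim b p.1 p.2) := vonMangoldt_sum
        _ ≤ Real.log X + H * Real.log b := log_elim hb hd.1 he.1 hpH hH
    calc ∑ p ∈ R, ∑ q ∈ Q, (if q ∣ elim b p.1 p.2 then vonMangoldt q else 0)
        ≤ ∑ p ∈ R, (Real.log X + H * Real.log b) := sum_le_sum h9
      _ = (R.card : ℝ) * (Real.log X + H * Real.log b) := by rw [sum_const, nsmul_eq_mul]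
      _ ≤ (H : ℝ) ^ 2 * (Real.log X + H * Real.log b) := by
          refine mul_le_mul_of_nonneg_right ?_ hnn
          have h10 : R.card ≤ H ^ 2 := by
            refine (card_filter_le _ _).trans ?_
            rw [card_product, Nat.card_Icc, Nat.add_sub_cancel, pow_two]
          exact_mod_cast h10
  calc ∑ q ∈ Q, vonMangoldt q * ((sol b c X q).card : ℝ)
      ≤ ∑ q ∈ Q, (vonMangoldt q * (2 * (((X / (H + 1) : ℕ) : ℝ) + 1)) +
          ∑ p ∈ R, if q ∣ elim b p.1 p.2 then vonMangoldt q else 0) := sum_le_sum h1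
    _ = 2 * (((X / (H + 1) : ℕ) : ℝ) + 1) * (∑ q ∈ Q, vonMangoldt q) +
          ∑ q ∈ Q, ∑ p ∈ R, (if q ∣ elim b p.1 p.2 then vonMangoldt q else 0) := by
        rw [sum_add_distrib, ← sum_mul, mul_comm]
    _ ≤ _ := add_le_add le_rfl h8

end Pool.Agent.H11.WD
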